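import Pool.Agent.Run7.h522.UT.Main

/-!
# Arbitrary weights on the integers below `N`: all but few prime moduli
-/

set_option autoImplicit false

namespace Run7.h522.UT

open Finset Filter Topology Run7.h522.BD ArithmeticFunction

/-- The primes of `(√N, N)`. -/
noncomputable def PN (N : ℕ) : Finset ℕ :=
  (Ico 1 N).filter fun n => n.Prime ∧ Nat.sqrt N < n

/-- The other integers. -/
noncomputable def RN (N : ℕ) : Finset ℕ :=
  (Ico 1 N).filter fun n => ¬ (n.Prime ∧ Nat.sqrt N < n)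

lemma sum_N (N : ℕ) {E : Type} [AddCommMonoid E] (f : ℕ → E) :
    ∑ n ∈ Ico 1 N, f n = ∑ n ∈ PN N, f n + ∑ n ∈ RN N, f n := by
  unfold PN RN
  rw [sum_filter_add_sum_filter_not]

lemma sqrt_le_real (N : ℕ) : (Nat.sqrt N : ℝ) ≤ Real.sqrt N := by
  refine Real.le_sqrt_of_sq_le ?_
  have := Nat.sqrt_le' N
  exact_mod_cast this

lemma rest_mass {N : ℕ} (hN : 2 ≤ N) :
    ∑ n ∈ RN N, vonMangoldt n ≤ 4 * (Real.sqrt N * Real.log N) := by
  have hN1 : (1 : ℝ) ≤ N := by exact_mod_cast (by omega : 1 ≤ N)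
  have hN2 : (2 : ℝ) ≤ N := by exact_mod_cast hN
  have hsub : RN N ⊆ ((Ioc 0 N).filter fun n => ¬ n.Prime) ∪
      ((Ioc 0 (Nat.sqrt N)).filter fun n => n.Prime) := by
    intro n hn
    unfold RN at hn
    rw [mem_filter, mem_Ico] at hn
    rw [mem_union, mem_filter, mem_filter, mem_Ioc, mem_Ioc]
    by_cases hp : n.Prime
    · right
      refine ⟨⟨by omega, ?_⟩, hp⟩
      by_contra h
      exact hn.2 ⟨hp, by omega⟩
    · left
      exact ⟨⟨by omega, by omega⟩, hp⟩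
  have h1 : ∑ n ∈ (Ioc 0 N).filter (fun n => ¬ n.Prime), vonMangoldt n ≤
      2 * Real.sqrt N * Real.log N := by
    have h := Chebyshev.psi_sub_theta_eq_sum_not_prime (N : ℝ)
    rw [Nat.floor_natCast] at h
    rw [← h]
    exact Chebyshev.psi_sub_theta_le hN1
  have h2 : ∑ n ∈ (Ioc 0 (Nat.sqrt N)).filter (fun n => n.Prime), vonMangoldt n ≤
      Real.log 4 * Real.sqrt N := by
    have h := Chebyshev.theta_le_log4_mul_x (x := (Nat.sqrt N : ℝ)) (Nat.cast_nonneg _)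
    have h3 : Chebyshev.theta (Nat.sqrt N : ℝ) =
        ∑ n ∈ (Ioc 0 (Nat.sqrt N)).filter (fun n => n.Prime), vonMangoldt n := by
      unfold Chebyshev.theta
      rw [Nat.floor_natCast]
      refine sum_congr rfl fun p hp => ?_
      rw [mem_filter] at hp
      rw [vonMangoldt_apply_prime hp.2]
    rw [← h3]
    refine h.trans (mul_le_mul_of_nonneg_left (sqrt_le_real N) (Real.log_nonneg (by norm_num)))
  have h4 : Real.log 4 ≤ 2 * Real.log N := by
    have : Real.log 4 = 2 * Real.log 2 := by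
      rw [show (4 : ℝ) = 2 ^ 2 by norm_num, Real.log_pow]
      norm_num
    rw [this]
    have := Real.log_le_log (by norm_num) hN2
    linarith
  have hs := Real.sqrt_nonneg (N : ℝ)
  calc ∑ n ∈ RN N, vonMangoldt n ≤ ∑ n ∈ ((Ioc 0 N).filter fun n => ¬ n.Prime) ∪
      ((Ioc 0 (Nat.sqrt N)).filter fun n => n.Prime), vonMangoldt n :=
        sum_le_sum_of_subset_of_nonneg hsub fun _ _ _ => vonMangoldt_nonneg
    _ ≤ ∑ n ∈ (Ioc 0 N).filter (fun n => ¬ n.Prime), vonMangoldt n +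
        ∑ n ∈ (Ioc 0 (Nat.sqrt N)).filter (fun n => n.Prime), vonMangoldt n := by
        rw [← sum_union_inter]
        have : (0 : ℝ) ≤ ∑ n ∈ ((Ioc 0 N).filter fun n => ¬ n.Prime) ∩
          ((Ioc 0 (Nat.sqrt N)).filter fun n => n.Prime), vonMangoldt n :=
          sum_nonneg fun _ _ => vonMangoldt_nonneg
        linarith
    _ ≤ 2 * Real.sqrt N * Real.log N + Real.log 4 * Real.sqrt N := add_le_add h1 h2
    _ ≤ _ := by nlinarith

variable {N : ℕ} {G : ℝ} {c : ℕ → ℂ}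

lemma rest_le (hN : 2 ≤ N) (hG : 0 ≤ G) (hc : ∀ n, 1 ≤ n → n < N → ‖c n‖ ≤ G * vonMangoldt n) :
    ∑ n ∈ RN N, ‖c n‖ ≤ G * (4 * (Real.sqrt N * Real.log N)) := by
  refine (sum_le_sum (g := fun n => G * vonMangoldt n) fun n hn => ?_).trans ?_
  · unfold RN at hn
    rw [mem_filter, mem_Ico] at hn
    exact hc n hn.1.1 hn.1.2
  · rw [← mul_sum]
    exact mul_le_mul_of_nonneg_left (rest_mass hN) hG

lemma sq_mass (hN : 2 ≤ N) (hG : 0 ≤ G) (hc : ∀ n, 1 ≤ n → n < N → ‖c n‖ ≤ G * vonMangoldt n) :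
    ∑ n ∈ PN N, ‖c n‖ ^ 2 ≤ G ^ 2 * (Real.log N * (Real.log 4 * N)) := by
  have hN0 : (0 : ℝ) ≤ N := Nat.cast_nonneg _
  have hN1 : (1 : ℝ) ≤ N := by exact_mod_cast (by omega : 1 ≤ N)
  have h1 : ∀ n ∈ PN N, ‖c n‖ ^ 2 ≤ G ^ 2 * (Real.log N * Real.log n) := by
    intro n hn
    unfold PN at hn
    rw [mem_filter, mem_Ico] at hn
    have h2 := hc n hn.1.1 hn.1.2
    rw [vonMangoldt_apply_prime hn.2.1] at h2
    have hn1 : (1 : ℝ) ≤ n := by exact_mod_cast hn.1.1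
    have hl := Real.log_nonneg hn1
    have hl2 : Real.log n ≤ Real.log N := Real.log_le_log (by linarith) (by exact_mod_cast hn.1.2.le)
    calc ‖c n‖ ^ 2 ≤ (G * Real.log n) ^ 2 := pow_le_pow_left₀ (norm_nonneg _) h2 2
      _ = G ^ 2 * (Real.log n * Real.log n) := by ring
      _ ≤ _ := by gcongr
  refine (sum_le_sum h1).trans ?_
  rw [← mul_sum, ← mul_sum]
  have h3 : ∑ n ∈ PN N, Real.log n ≤ Real.log 4 * N := by
    have h := Chebyshev.theta_le_log4_mul_x (x := (N : ℝ)) hN0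
    refine le_trans ?_ h
    unfold Chebyshev.theta
    rw [Nat.floor_natCast]
    refine sum_le_sum_of_subset_of_nonneg ?_ ?_
    · intro n hn
      unfold PN at hn
      rw [mem_filter, mem_Ico] at hn
      rw [mem_filter, mem_Ioc]
      exact ⟨⟨by omega, by omega⟩, hn.2.1⟩
    · intro n hn _
      rw [mem_filter, mem_Ioc] at hn
      exact Real.log_nonneg (by exact_mod_cast hn.1.1)
  have := Real.log_nonneg hN1
  gcongr

/-- The sum over all primitive characters. -/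
theorem S_nat (hN : 2 ≤ N) (hG : 0 ≤ G) (hc : ∀ n, 1 ≤ n → n < N → ‖c n‖ ≤ G * vonMangoldt n)
    {δ : ℝ} (hδ : 0 < δ) {Q : ℕ} (hQX : (Q : ℝ) ≤ (N : ℝ) ^ (1 / 2 - δ)) :
    ∑ q ∈ range Q, PP (PN N) c (q + 1) ≤ 34 * (G * N) ^ 2 / δ := by
  have hN1 : (1 : ℝ) < N := by exact_mod_cast (by omega : 1 < N)
  have hl := Real.log_pos hN1
  rcases Nat.eq_zero_or_pos Q with hQ | hQ
  · subst hQ
    rw [range_zero, sum_empty]
    positivity
  obtain ⟨h1, h2⟩ := log_ge hδ (by omega) hQ hQX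
  have hB : PN N ⊆ Ioc 0 (0 + N) := by
    intro p hp
    unfold PN at hp
    rw [mem_filter, mem_Ico] at hp
    rw [mem_Ioc]
    omega
  have h3 := bd 0 N Q (Nat.sqrt N) h1 hB c (by
    intro p hp m hm
    unfold PN at hp
    rw [mem_filter, mem_Ico] at hp
    rw [mem_Icc] at hm
    refine (Nat.Prime.coprime_iff_not_dvd hp.2.1).2 fun hd => ?_
    have := Nat.le_of_dvd hm.1 hd
    omega)
  have h4 : 0 ≤ ∑ q ∈ range Q, PP (PN N) c (q + 1) := sum_nonneg fun _ _ => PP_nonneg _ _ _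
  set S := ∑ q ∈ range Q, PP (PN N) c (q + 1) with hS
  have h5 : ((Nat.sqrt N : ℕ) : ℝ) ^ 2 ≤ N := by
    have := Nat.sqrt_le' N
    exact_mod_cast this
  have h6 := sq_mass hN hG hc
  have h7 : 0 ≤ ∑ n ∈ PN N, ‖c n‖ ^ 2 := sum_nonneg fun _ _ => by positivity
  have hlog4 : Real.log 4 ≤ 34 / 24 := by
    have : Real.log 4 = 2 * Real.log 2 := by
      rw [show (4 : ℝ) = 2 ^ 2 by norm_num, Real.log_pow]
      norm_num
    rw [this]
    have := Real.log_two_lt_d9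
    linarith
  have h8 : δ * Real.log N / 2 * S ≤ 12 * N * (G ^ 2 * (Real.log N * (34 / 24 * N))) := by
    have h9 : δ * Real.log N / 2 * S ≤
        Real.log (((Nat.sqrt N / Q : ℕ) : ℝ) + 1) / 2 * S :=
      mul_le_mul_of_nonneg_right (by linarith) h4
    refine h9.trans (h3.trans ?_)
    calc 6 * ((N : ℝ) + ((Nat.sqrt N : ℕ) : ℝ) ^ 2) * ∑ n ∈ PN N, ‖c n‖ ^ 2
        ≤ 6 * ((N : ℝ) + N) * (G ^ 2 * (Real.log N * (Real.log 4 * N))) := by gcongr
      _ ≤ 6 * ((N : ℝ) + N) * (G ^ 2 * (Real.log N * (34 / 24 * N))) := by gcongr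
      _ = _ := by ring
  rw [le_div_iff₀ hδ]
  have h10 : (S * δ) * (Real.log N / 2) ≤ (34 * (G * N) ^ 2) * (Real.log N / 2) := by
    calc (S * δ) * (Real.log N / 2) = δ * Real.log N / 2 * S := by ring
      _ ≤ _ := h8
      _ = _ := by ring
  exact le_of_mul_le_mul_right h10 (by positivity)

/-- The sums over the residue classes. -/
noncomputable def Tn (B : Finset ℕ) (c : ℕ → ℂ) (q : ℕ) (a : (ZMod q)ˣ) : ℂ :=
  ∑ n ∈ B.filter (fun n : ℕ => (n : ZMod q) = a), c n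

lemma sum_Tn_le {q : ℕ} [NeZero q] (B : Finset ℕ) (c : ℕ → ℂ) :
    ∑ a : (ZMod q)ˣ, ‖Tn B c q a‖ ≤ ∑ n ∈ B, ‖c n‖ := by
  classical
  unfold Tn
  calc ∑ a : (ZMod q)ˣ, ‖∑ n ∈ B.filter (fun n : ℕ => (n : ZMod q) = a), c n‖
      ≤ ∑ a : (ZMod q)ˣ, ∑ n ∈ B.filter (fun n : ℕ => (n : ZMod q) = a), ‖c n‖ :=
        sum_le_sum fun a _ => norm_sum_le _ _
    _ = ∑ n ∈ B, ∑ a : (ZMod q)ˣ, if (n : ZMod q) = a then ‖c n‖ else 0 := by
        rw [sum_comm]
        refine sum_congr rfl fun a _ => ?_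
        rw [sum_filter]
    _ ≤ ∑ n ∈ B, ‖c n‖ := by
        refine sum_le_sum fun n _ => ?_
        by_cases h : IsUnit ((n : ℕ) : ZMod q)
        · obtain ⟨u, hu⟩ := h
          rw [sum_eq_single u]
          · rw [if_pos hu.symm]
          · intro b _ hb
            rw [if_neg]
            intro h2
            exact hb (Units.ext (by rw [← h2, hu]))
          · exact fun h => absurd (mem_univ _) h
        · rw [sum_eq_zero]
          · exact norm_nonneg _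
          · intro a _
            rw [if_neg]
            intro h2
            exact h (h2 ▸ a.isUnit)

/-- The discrepancy for one prime modulus. -/
lemma dd_nat (hN : 2 ≤ N) (hG : 0 ≤ G) (hc : ∀ n, 1 ≤ n → n < N → ‖c n‖ ≤ G * vonMangoldt n)
    {q : ℕ} [NeZero q] (hq : q.Prime) (hqN : q ≤ Nat.sqrt N) :
    dd (Tn (Ico 1 N) c q) ≤
      Real.sqrt (PP (PN N) c q) + G * (8 * (Real.sqrt N * Real.log N)) := by
  have h1 : Tn (Ico 1 N) c q = fun a => Tn (PN N) c q a + Tn (RN N) c q a := by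
    funext a
    unfold Tn
    rw [sum_filter, sum_filter, sum_filter, sum_N]
  rw [h1]
  refine (dd_add _ _).trans (add_le_add ?_ ?_)
  · refine Real.le_sqrt_of_sq_le ?_
    refine dd_main hq (PN N) c fun p hp => ?_
    unfold PN at hp
    rw [mem_filter, mem_Ico] at hp
    refine (Nat.coprime_primes hp.2.1 hq).2 ?_
    omega
  · refine (dd_le _).trans ?_
    have h2 := sum_Tn_le (q := q) (RN N) c
    have h3 := rest_le hN hG hc
    change 2 * ∑ a, ‖Tn (RN N) c q a‖ ≤ _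
    linarith

/-- Few exceptional characters. -/
theorem chars_nat (hN : 2 ≤ N) (hG : 0 < G) (hc : ∀ n, 1 ≤ n → n < N → ‖c n‖ ≤ G * vonMangoldt n)
    {δ : ℝ} (hδ : 0 < δ) {Q : ℕ} (hQX : (Q : ℝ) ≤ (N : ℝ) ^ (1 / 2 - δ)) {T : ℝ} (hT : 0 < T)
    (E : Finset (Σ q : ℕ, DirichletCharacter ℂ (q + 1)))
    (hE : ∀ z ∈ E, z.1 < Q ∧ z.2.IsPrimitive ∧
      G * (N / T + 4 * (Real.sqrt N * Real.log N)) <
        ‖∑ n ∈ Ico 1 N, c n * z.2 ((n : ℕ) : ZMod (z.1 + 1))‖) :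
    (E.card : ℝ) ≤ 34 * T ^ 2 / δ := by
  classical
  have hN0 : (0 : ℝ) < N := by exact_mod_cast (by omega : 0 < N)
  have hS := S_nat hN hG.le hc hδ hQX
  have h1 : (E.card : ℝ) * (G * (N / T)) ^ 2 ≤ 34 * (G * N) ^ 2 / δ := by
    refine le_trans ?_ hS
    rw [← sum_AC Q (PN N) c]
    calc (E.card : ℝ) * (G * (N / T)) ^ 2 = ∑ z ∈ E, (G * (N / T)) ^ 2 := by
          rw [sum_const, nsmul_eq_mul]
      _ ≤ ∑ z ∈ E, ‖∑ p ∈ PN N, c p * z.2 (p : ZMod (z.1 + 1))‖ ^ 2 := by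
          refine sum_le_sum fun z hz => pow_le_pow_left₀ (by positivity) ?_ 2
          have h2 := (hE z hz).2.2
          rw [sum_N] at h2
          have h3 := norm_add_le (∑ n ∈ PN N, c n * z.2 ((n : ℕ) : ZMod (z.1 + 1)))
            (∑ n ∈ RN N, c n * z.2 ((n : ℕ) : ZMod (z.1 + 1)))
          have h4 : ‖∑ n ∈ RN N, c n * z.2 ((n : ℕ) : ZMod (z.1 + 1))‖ ≤
              G * (4 * (Real.sqrt N * Real.log N)) := by
            refine (norm_sum_le_of_le (n := fun n => ‖c n‖) _ fun n _ => ?_).trans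
              (rest_le hN hG.le hc)
            rw [norm_mul]
            calc ‖c n‖ * ‖z.2 ((n : ℕ) : ZMod (z.1 + 1))‖ ≤ ‖c n‖ * 1 :=
                  mul_le_mul_of_nonneg_left (z.2.norm_le_one _) (norm_nonneg _)
              _ = _ := mul_one _
          have h5 : G * (N / T + 4 * (Real.sqrt N * Real.log N)) =
              G * (N / T) + G * (4 * (Real.sqrt N * Real.log N)) := by ring
          linarith
      _ ≤ _ := by
          refine sum_le_sum_of_subset_of_nonneg ?_ fun _ _ _ => by positivity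
          intro z hz
          rw [mem_filter, mem_AC]
          exact ⟨(hE z hz).1, (hE z hz).2.1⟩
  rw [le_div_iff₀ hδ] at h1 ⊢
  have h6 : (E.card : ℝ) * δ * (G * N) ^ 2 ≤ 34 * T ^ 2 * (G * N) ^ 2 := by
    have h7 := mul_le_mul_of_nonneg_left h1 (by positivity : (0 : ℝ) ≤ T ^ 2)
    calc (E.card : ℝ) * δ * (G * N) ^ 2 = T ^ 2 * ((E.card : ℝ) * (G * (N / T)) ^ 2 * δ) := by
          field_simp
      _ ≤ T ^ 2 * (34 * (G * N) ^ 2) := h7
      _ = _ := by ring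
  exact le_of_mul_le_mul_right h6 (by positivity)

/-- Few exceptional prime moduli. -/
theorem moduli_nat (hN : 2 ≤ N) (hG : 0 < G) (hc : ∀ n, 1 ≤ n → n < N → ‖c n‖ ≤ G * vonMangoldt n)
    {δ : ℝ} (hδ : 0 < δ) {Q : ℕ} (hQX : (Q : ℝ) ≤ (N : ℝ) ^ (1 / 2 - δ)) {T : ℝ} (hT : 0 < T)
    (M : Finset ℕ)
    (hM : ∀ q ∈ M, q < Q ∧ (q + 1).Prime ∧
      G * (N / T + 8 * (Real.sqrt N * Real.log N)) < dd (Tn (Ico 1 N) c (q + 1))) :
    (M.card : ℝ) ≤ 34 * T ^ 2 / δ := by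
  classical
  have hN0 : (0 : ℝ) < N := by exact_mod_cast (by omega : 0 < N)
  have hS := S_nat hN hG.le hc hδ hQX
  have h1 : (M.card : ℝ) * (G * (N / T)) ^ 2 ≤ 34 * (G * N) ^ 2 / δ := by
    refine le_trans ?_ hS
    calc (M.card : ℝ) * (G * (N / T)) ^ 2 = ∑ q ∈ M, (G * (N / T)) ^ 2 := by
          rw [sum_const, nsmul_eq_mul]
      _ ≤ ∑ q ∈ M, PP (PN N) c (q + 1) := by
          refine sum_le_sum fun q hq => ?_
          obtain ⟨h2, h3, h4⟩ := hM q hq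
          obtain ⟨hQr, _⟩ := log_ge hδ (by omega) (by omega : 1 ≤ Q) hQX
          have h5 := dd_nat hN hG.le hc h3 (by omega)
          have h6 : G * (N / T + 8 * (Real.sqrt N * Real.log N)) =
              G * (N / T) + G * (8 * (Real.sqrt N * Real.log N)) := by ring
          have h7 : G * (N / T) ≤ Real.sqrt (PP (PN N) c (q + 1)) := by linarith
          calc (G * (N / T)) ^ 2 ≤ (Real.sqrt (PP (PN N) c (q + 1))) ^ 2 :=
                pow_le_pow_left₀ (by positivity) h7 2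
            _ = _ := Real.sq_sqrt (PP_nonneg _ _ _)
      _ ≤ _ := by
          refine sum_le_sum_of_subset_of_nonneg ?_ fun _ _ _ => PP_nonneg _ _ _
          intro q hq
          exact mem_range.2 (hM q hq).1
  rw [le_div_iff₀ hδ] at h1 ⊢
  have h6 : (M.card : ℝ) * δ * (G * N) ^ 2 ≤ 34 * T ^ 2 * (G * N) ^ 2 := by
    have h7 := mul_le_mul_of_nonneg_left h1 (by positivity : (0 : ℝ) ≤ T ^ 2)
    calc (M.card : ℝ) * δ * (G * N) ^ 2 = T ^ 2 * ((M.card : ℝ) * (G * (N / T)) ^ 2 * δ) := by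
          field_simp
      _ ≤ T ^ 2 * (34 * (G * N) ^ 2) := h7
      _ = _ := by ring
  exact le_of_mul_le_mul_right h6 (by positivity)

/-- `∑ 1 / q²` -/
lemma sum_inv_sq {Y : ℕ} (hY : 1 ≤ Y) (F : Finset ℕ) (hF : ∀ q ∈ F, Y ≤ q + 1) :
    ∑ q ∈ F, (1 / ((q : ℝ) + 1)) ^ 2 ≤ 2 / (Y : ℝ) := by
  obtain ⟨R, hR⟩ : ∃ R, ∀ q ∈ F, q < R :=
    ⟨F.sup id + 1, fun p hp => Nat.lt_succ_of_le (Finset.le_sup (f := id) hp)⟩
  have hsub : F ⊆ Ico (Y - 1) (Y - 1 + R) := fun q hq => by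
    have h1 := hF q hq
    have h2 := hR q hq
    rw [mem_Ico]
    omega
  have h0 : ∀ q ∈ Ico (Y - 1) (Y - 1 + R), q ∉ F → (0 : ℝ) ≤ (1 / ((q : ℝ) + 1)) ^ 2 :=
    fun q _ _ => by positivity
  refine (sum_le_sum_of_subset_of_nonneg hsub h0).trans ?_
  have hY0 : (0 : ℝ) < Y := by exact_mod_cast hY
  have hind : ∀ R : ℕ, ∑ q ∈ Ico (Y - 1) (Y - 1 + R), (1 / ((q : ℝ) + 1)) ^ 2 ≤
      2 / (Y : ℝ) - 2 / ((Y : ℝ) + R) := by
    intro R
    induction R with
    | zero => simp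
    | succ R ih =>
      rw [← add_assoc, sum_Ico_succ_top (by omega)]
      have hc : ((Y - 1 + R : ℕ) : ℝ) + 1 = Y + R := by
        have : Y - 1 + R + 1 = Y + R := by omega
        exact_mod_cast this
      rw [hc]
      have hp : (1 : ℝ) ≤ (Y : ℝ) + R := by
        have h1 : (1 : ℝ) ≤ Y := by exact_mod_cast hY
        have h2 : (0 : ℝ) ≤ R := Nat.cast_nonneg _
        linarith
      have h3 : (1 / ((Y : ℝ) + R)) ^ 2 ≤ 2 / ((Y : ℝ) + R) - 2 / ((Y : ℝ) + R + 1) := by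
        rw [div_sub_div _ _ (by positivity) (by positivity), div_pow, one_pow,
          div_le_div_iff₀ (by positivity) (by positivity)]
        nlinarith
      push_cast
      rw [← add_assoc]
      linarith
  refine (hind R).trans ?_
  have : (0 : ℝ) ≤ 2 / ((Y : ℝ) + R) := by positivity
  linarith

lemma sum_inv {X : ℕ} (F : Finset ℕ) (hF : ∀ q ∈ F, q < X) :
    ∑ q ∈ F, 1 / ((q : ℝ) + 1) ≤ 1 + Real.log X := by
  have h0 : ∀ q ∈ range X, q ∉ F → (0 : ℝ) ≤ 1 / ((q : ℝ) + 1) := fun q _ _ => by positivity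
  refine (sum_le_sum_of_subset_of_nonneg (fun q hq => mem_range.2 (hF q hq)) h0).trans ?_
  have h := harmonic_le_one_add_log X
  refine le_trans (le_of_eq ?_) h
  unfold harmonic
  push_cast
  exact sum_congr rfl fun q _ => by rw [one_div]

/-- The mean over the residue classes, all large prime moduli. -/
theorem mean_nat (hN : 2 ≤ N) (hG : 0 ≤ G) (hc : ∀ n, 1 ≤ n → n < N → ‖c n‖ ≤ G * vonMangoldt n)
    {δ : ℝ} (hδ : 0 < δ) {Q : ℕ} (hQX : (Q : ℝ) ≤ (N : ℝ) ^ (1 / 2 - δ)) {Y : ℕ} (hY : 1 ≤ Y)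
    (M : Finset ℕ) (hM : ∀ q ∈ M, q < Q ∧ (q + 1).Prime ∧ Y ≤ q + 1) :
    ∑ q ∈ M, 1 / ((q : ℝ) + 1) * dd (Tn (Ico 1 N) c (q + 1)) ≤
      9 * (G * N) / Real.sqrt (δ * Y) + G * (8 * (Real.sqrt N * (1 + Real.log N) ^ 2)) := by
  classical
  have hN0 : (0 : ℝ) < N := by exact_mod_cast (by omega : 0 < N)
  have hN1 : (1 : ℝ) ≤ N := by exact_mod_cast (by omega : 1 ≤ N)
  have hl := Real.log_nonneg hN1
  have hY0 : (0 : ℝ) < Y := by exact_mod_cast hY
  have hS := S_nat hN hG hc hδ hQX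
  have hstep : ∀ q ∈ M, 1 / ((q : ℝ) + 1) * dd (Tn (Ico 1 N) c (q + 1)) ≤
      1 / ((q : ℝ) + 1) * Real.sqrt (PP (PN N) c (q + 1)) +
        1 / ((q : ℝ) + 1) * (G * (8 * (Real.sqrt N * Real.log N))) := by
    intro q hq
    obtain ⟨h1, h2, _⟩ := hM q hq
    obtain ⟨hQr, _⟩ := log_ge hδ (by omega) (by omega : 1 ≤ Q) hQX
    rw [← mul_add]
    exact mul_le_mul_of_nonneg_left (dd_nat hN hG hc h2 (by omega)) (by positivity)
  refine (sum_le_sum hstep).trans ?_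
  rw [sum_add_distrib, ← sum_mul]
  refine add_le_add ?_ ?_
  · have hcs := sum_mul_sq_le_sq_mul_sq M (fun q : ℕ => 1 / ((q : ℝ) + 1))
      (fun q => Real.sqrt (PP (PN N) c (q + 1)))
    have h1 := sum_inv_sq hY M fun q hq => (hM q hq).2.2
    have h2 : ∑ q ∈ M, Real.sqrt (PP (PN N) c (q + 1)) ^ 2 ≤ 34 * (G * N) ^ 2 / δ := by
      have h3 : ∑ q ∈ M, Real.sqrt (PP (PN N) c (q + 1)) ^ 2 = ∑ q ∈ M, PP (PN N) c (q + 1) :=
        sum_congr rfl fun q _ => Real.sq_sqrt (PP_nonneg _ _ _)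
      rw [h3]
      refine le_trans ?_ hS
      exact sum_le_sum_of_subset_of_nonneg (fun q hq => mem_range.2 (hM q hq).1)
        fun _ _ _ => PP_nonneg _ _ _
    have h3 : (∑ q ∈ M, 1 / ((q : ℝ) + 1) * Real.sqrt (PP (PN N) c (q + 1))) ^ 2 ≤
        (9 * (G * N) / Real.sqrt (δ * Y)) ^ 2 := by
      refine hcs.trans ?_
      calc (∑ q ∈ M, (1 / ((q : ℝ) + 1)) ^ 2) * ∑ q ∈ M, Real.sqrt (PP (PN N) c (q + 1)) ^ 2
          ≤ (2 / (Y : ℝ)) * (34 * (G * N) ^ 2 / δ) := by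
            refine mul_le_mul h1 h2 (sum_nonneg fun _ _ => by positivity) (by positivity)
        _ ≤ _ := by
            rw [div_pow, Real.sq_sqrt (by positivity), div_mul_div_comm,
              div_le_div_iff₀ (by positivity) (by positivity)]
            have h4 : 0 ≤ (G * N) ^ 2 * (δ * Y) := by positivity
            nlinarith
    exact (abs_le_of_sq_le_sq' h3 (by positivity)).2
  · have h1 := sum_inv (X := N) M fun q hq => by
      obtain ⟨h1, h2, _⟩ := hM q hq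
      obtain ⟨hQr, _⟩ := log_ge hδ (by omega) (by omega : 1 ≤ Q) hQX
      have := Nat.sqrt_le_self N
      omega
    have h2 : 0 ≤ G * (8 * (Real.sqrt N * Real.log N)) := by positivity
    calc (∑ q ∈ M, 1 / ((q : ℝ) + 1)) * (G * (8 * (Real.sqrt N * Real.log N)))
        ≤ (1 + Real.log N) * (G * (8 * (Real.sqrt N * Real.log N))) :=
          mul_le_mul_of_nonneg_right h1 h2
      _ ≤ (1 + Real.log N) * (G * (8 * (Real.sqrt N * (1 + Real.log N)))) := by
          gcongr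
          linarith
      _ = _ := by ring

end Run7.h522.UT
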