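import Pool.Agent.Run7.h522.BD.BD
import Pool.Agent.Run7.h522.BM.Places
import Mathlib.NumberTheory.Chebyshev

/-!
# All but boundedly many characters: the sums over the places
-/

set_option autoImplicit false

namespace Run7.h522.UT

open Finset NumberField IsDedekindDomain Filter Topology Pool.Agent.H921R2.TatePole
  Pool.Agent.W350.Edge Pool.Agent.W350.EdgeV Pool.Agent.W350.EdgeNF Run7.h522.BD

variable {K : Type} [Field K] [NumberField K]

/-- The places of norm at most `X`. -/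
noncomputable def VX (K : Type) [Field K] [NumberField K] (X : ℕ) :
    Finset (HeightOneSpectrum (𝓞 K)) := FV nm hfin (X + 1)

lemma mem_VX {X : ℕ} {v : HeightOneSpectrum (𝓞 K)} : v ∈ VX K X ↔ nm v ≤ X := by
  unfold VX
  rw [mem_FV]
  omega

open Classical in
/-- The large places of prime norm. -/
noncomputable def Mn (K : Type) [Field K] [NumberField K] (X : ℕ) :
    Finset (HeightOneSpectrum (𝓞 K)) :=
  (VX K X).filter fun v => (nm v).Prime ∧ Nat.sqrt X < nm v

open Classical in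
/-- The other places. -/
noncomputable def Rs (K : Type) [Field K] [NumberField K] (X : ℕ) :
    Finset (HeightOneSpectrum (𝓞 K)) :=
  (VX K X).filter fun v => ¬ ((nm v).Prime ∧ Nat.sqrt X < nm v)

lemma sum_VX (X : ℕ) {E : Type} [AddCommMonoid E] (f : HeightOneSpectrum (𝓞 K) → E) :
    ∑ v ∈ VX K X, f v = ∑ v ∈ Mn K X, f v + ∑ v ∈ Rs K X, f v := by
  classical
  unfold Mn Rs
  rw [sum_filter_add_sum_filter_not]

lemma card_Rs (X : ℕ) : (Rs K X).card ≤ Module.finrank ℚ K * Nat.sqrt X := by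
  classical
  have h := Finset.card_le_mul_card_image_of_maps_to (s := Rs K X)
    (t := Finset.Icc 1 (Nat.sqrt X)) (f := fun v => ((below v : ℕ))) ?_ (Module.finrank ℚ K) ?_
  · rwa [Nat.card_Icc, Nat.add_sub_cancel] at h
  · intro v hv
    unfold Rs at hv
    rw [mem_filter, mem_VX] at hv
    obtain ⟨h1, h2, _⟩ := nm_eq v
    rw [mem_Icc]
    refine ⟨(below v).2.pos, ?_⟩
    by_cases hp : (nm v).Prime
    · have h3 : nm v ≤ Nat.sqrt X := by
        by_contra hc
        exact hv.2 ⟨hp, by omega⟩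
      refine le_trans ?_ h3
      rw [h1]
      exact Nat.le_self_pow h2.ne' _
    · have h3 : 2 ≤ deg v := by
        by_contra h4
        have h5 : deg v = 1 := by omega
        rw [h5, pow_one] at h1
        exact hp (by rw [h1]; exact (below v).2)
      rw [Nat.le_sqrt']
      refine le_trans ?_ hv.1
      rw [h1]
      exact Nat.pow_le_pow_right (below v).2.pos h3
  · intro p _
    by_cases hpp : p.Prime
    · refine card_above ⟨p, hpp⟩ _ fun v hv => ?_
      rw [mem_filter] at hv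
      exact Subtype.ext hv.2
    · rw [Finset.filter_eq_empty_iff.2, card_empty]
      · exact Nat.zero_le _
      · intro v _ h
        exact hpp (h ▸ (below v).2)

/-- The primes of `(√X, X]`. -/
noncomputable def PR (X : ℕ) : Finset ℕ := (Ioc (Nat.sqrt X) X).filter Nat.Prime

open Classical in
/-- The sum over the places of norm `p`. -/
noncomputable def gp (c : HeightOneSpectrum (𝓞 K) → ℂ) (X p : ℕ) : ℂ :=
  ∑ v ∈ (VX K X).filter (fun v => nm v = p), c v

lemma norm_gp {c : HeightOneSpectrum (𝓞 K) → ℂ} (hc : ∀ v, ‖c v‖ ≤ 1) (X : ℕ) {p : ℕ}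
    (hp : p.Prime) : ‖gp c X p‖ ≤ Module.finrank ℚ K := by
  classical
  unfold gp
  refine (norm_sum_le_of_le (n := fun _ => (1 : ℝ)) _ fun v _ => hc v).trans ?_
  rw [sum_const, nsmul_eq_mul, mul_one]
  have h : ((VX K X).filter (fun v => nm v = p)).card ≤ Module.finrank ℚ K := by
    refine card_above ⟨p, hp⟩ _ fun v hv => ?_
    rw [mem_filter] at hv
    refine Subtype.ext ?_
    change (Ideal.absNorm v.asIdeal).minFac = p
    have h2 : Ideal.absNorm v.asIdeal = p := hv.2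
    rw [h2, hp.minFac_eq]
  exact_mod_cast h

lemma sum_Mn (c : HeightOneSpectrum (𝓞 K) → ℂ) (X : ℕ) (F : ℕ → ℂ) :
    ∑ v ∈ Mn K X, c v * F (nm v) = ∑ p ∈ PR X, gp c X p * F p := by
  classical
  have hmap : ∀ v ∈ Mn K X, nm v ∈ PR X := by
    intro v hv
    unfold Mn at hv
    rw [mem_filter, mem_VX] at hv
    unfold PR
    rw [mem_filter, mem_Ioc]
    exact ⟨⟨hv.2.2, hv.1⟩, hv.2.1⟩
  rw [← sum_fiberwise_of_maps_to hmap]
  refine sum_congr rfl fun p hp => ?_
  unfold PR at hp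
  rw [mem_filter, mem_Ioc] at hp
  unfold gp
  rw [sum_mul]
  have h1 : (Mn K X).filter (fun v => nm v = p) = (VX K X).filter (fun v => nm v = p) := by
    ext v
    unfold Mn
    rw [mem_filter, mem_filter, mem_filter]
    constructor
    · exact fun h => ⟨h.1.1, h.2⟩
    · exact fun h => ⟨⟨h.1, by rw [h.2]; exact ⟨hp.2, hp.1.1⟩⟩, h.2⟩
  rw [h1]
  refine sum_congr rfl fun v hv => ?_
  rw [mem_filter] at hv
  rw [hv.2]

/-- The large sieve for the places. -/
lemma pp_bound {c : HeightOneSpectrum (𝓞 K) → ℂ} (hc : ∀ v, ‖c v‖ ≤ 1) (X Q : ℕ)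
    (hQ : Q ≤ Nat.sqrt X) :
    Real.log (((Nat.sqrt X / Q : ℕ) : ℝ) + 1) / 2 * ∑ q ∈ range Q, PP (PR X) (gp c X) (q + 1) ≤
      12 * X * ((Module.finrank ℚ K : ℝ) ^ 2 * (PR X).card) := by
  have hB : PR X ⊆ Ioc 0 (0 + X) := by
    intro p hp
    unfold PR at hp
    rw [mem_filter, mem_Ioc] at hp
    rw [mem_Ioc]
    omega
  have h := bd 0 X Q (Nat.sqrt X) hQ hB (gp c X) (by
    intro p hp m hm
    unfold PR at hp
    rw [mem_filter, mem_Ioc] at hp
    rw [mem_Icc] at hm
    refine (Nat.Prime.coprime_iff_not_dvd hp.2).2 fun hd => ?_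
    have := Nat.le_of_dvd hm.1 hd
    omega)
  refine h.trans ?_
  have h1 : ∑ p ∈ PR X, ‖gp c X p‖ ^ 2 ≤ (Module.finrank ℚ K : ℝ) ^ 2 * (PR X).card := by
    refine (sum_le_sum (g := fun _ => (Module.finrank ℚ K : ℝ) ^ 2) fun p hp => ?_).trans ?_
    · unfold PR at hp
      rw [mem_filter] at hp
      exact pow_le_pow_left₀ (norm_nonneg _) (norm_gp hc X hp.2) 2
    · rw [sum_const, nsmul_eq_mul, mul_comm]
  have h2 : ((Nat.sqrt X : ℕ) : ℝ) ^ 2 ≤ X := by
    have := Nat.sqrt_le' X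
    exact_mod_cast this
  have h3 : 0 ≤ ∑ p ∈ PR X, ‖gp c X p‖ ^ 2 := sum_nonneg fun _ _ => by positivity
  calc 6 * ((X : ℝ) + ((Nat.sqrt X : ℕ) : ℝ) ^ 2) * ∑ p ∈ PR X, ‖gp c X p‖ ^ 2
      ≤ 6 * ((X : ℝ) + X) * ((Module.finrank ℚ K : ℝ) ^ 2 * (PR X).card) := by
        gcongr
    _ = _ := by ring

end Run7.h522.UT
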