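import Pool.Agent.Run7.h522.BD.BD

/-!
# The discrepancy over the residue classes of a prime modulus
-/

set_option autoImplicit false

namespace Run7.h522.UT

open Finset Run7.h522.BD Pool.Agent.Helper112 Pool.Agent.Helper112.MLS

/-- The discrepancy of a function on the units. -/
noncomputable def dd {q : ℕ} [NeZero q] (T : (ZMod q)ˣ → ℂ) : ℝ :=
  ∑ a, ‖T a - (∑ b, T b) / (Nat.totient q : ℂ)‖

lemma dd_nonneg {q : ℕ} [NeZero q] (T : (ZMod q)ˣ → ℂ) : 0 ≤ dd T :=
  sum_nonneg fun _ _ => norm_nonneg _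

lemma dd_add {q : ℕ} [NeZero q] (T T' : (ZMod q)ˣ → ℂ) : dd (fun a => T a + T' a) ≤ dd T + dd T' := by
  unfold dd
  rw [← sum_add_distrib]
  refine sum_le_sum fun a _ => ?_
  rw [sum_add_distrib]
  have : T a + T' a - (∑ b, T b + ∑ b, T' b) / (Nat.totient q : ℂ) =
      (T a - (∑ b, T b) / (Nat.totient q : ℂ)) + (T' a - (∑ b, T' b) / (Nat.totient q : ℂ)) := by
    ring
  rw [this]
  exact norm_add_le _ _

lemma dd_mul {q : ℕ} [NeZero q] (l : ℂ) (T : (ZMod q)ˣ → ℂ) :
    dd (fun a => l * T a) = ‖l‖ * dd T := by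
  unfold dd
  rw [mul_sum]
  refine sum_congr rfl fun a _ => ?_
  rw [← mul_sum, ← norm_mul]
  congr 1
  ring

lemma dd_zero {q : ℕ} [NeZero q] : dd (fun _ : (ZMod q)ˣ => (0 : ℂ)) = 0 := by
  unfold dd
  simp

lemma dd_sum {q : ℕ} [NeZero q] {ι : Type} (s : Finset ι) (T : ι → (ZMod q)ˣ → ℂ) :
    dd (fun a => ∑ i ∈ s, T i a) ≤ ∑ i ∈ s, dd (T i) := by
  classical
  induction s using Finset.induction_on with
  | empty => simp [dd_zero]
  | insert i s hi ih =>
    simp only [sum_insert hi]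
    exact (dd_add _ _).trans (by linarith)

lemma dd_le {q : ℕ} [NeZero q] (T : (ZMod q)ˣ → ℂ) : dd T ≤ 2 * ∑ a, ‖T a‖ := by
  have hφ : (0 : ℝ) < Nat.totient q := by
    exact_mod_cast Nat.totient_pos.2 (NeZero.pos q)
  unfold dd
  calc ∑ a, ‖T a - (∑ b, T b) / (Nat.totient q : ℂ)‖
      ≤ ∑ a : (ZMod q)ˣ, (‖T a‖ + (∑ b, ‖T b‖) / Nat.totient q) := by
        refine sum_le_sum fun a _ => (norm_sub_le _ _).trans ?_
        rw [norm_div, Complex.norm_natCast]
        gcongr
        exact norm_sum_le _ _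
    _ = _ := by
        rw [sum_add_distrib, sum_const, card_univ, ZMod.card_units_eq_totient, nsmul_eq_mul]
        field_simp
        ring

lemma prim_of_ne {q : ℕ} (hq : q.Prime) (χ : DirichletCharacter ℂ q) (h : χ ≠ 1) :
    χ.IsPrimitive := by
  have h1 := DirichletCharacter.conductor_dvd_level χ
  rcases (Nat.dvd_prime hq).1 h1 with h2 | h2
  · have : NeZero q := ⟨hq.ne_zero⟩
    exact absurd ((DirichletCharacter.eq_one_iff_conductor_eq_one (χ := χ)).2 h2) h
  · exact h2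

/-- The discrepancy of a sequence over the residue classes of a prime modulus is bounded by the
primitive characters. -/
lemma dd_main {q : ℕ} [NeZero q] (hq : q.Prime) (B : Finset ℕ) (b : ℕ → ℂ)
    (hB : ∀ n ∈ B, n.Coprime q) :
    dd (fun a : (ZMod q)ˣ => ∑ n ∈ B.filter (fun n : ℕ => (n : ZMod q) = a), b n) ^ 2 ≤ PP B b q := by
  classical
  have hφ : (0 : ℝ) < Nat.totient q := by
    exact_mod_cast Nat.totient_pos.2 (NeZero.pos q)
  have hφ' : (Nat.totient q : ℂ) ≠ 0 := by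
    exact_mod_cast hφ.ne'
  set T : ZMod q → ℂ := fun a => ∑ n ∈ B.filter (fun n : ℕ => (n : ZMod q) = a), b n with hT
  set m : ℂ := (∑ b : (ZMod q)ˣ, T b) / (Nat.totient q : ℂ) with hm
  have hcard : Fintype.card (ZMod q)ˣ = Nat.totient q := ZMod.card_units_eq_totient q
  have h1 : dd (fun a : (ZMod q)ˣ => T a) ^ 2 ≤ Nat.totient q * ∑ a : (ZMod q)ˣ, ‖T a - m‖ ^ 2 := by
    unfold dd
    have := sq_sum_le_card_mul_sum_sq (s := (univ : Finset (ZMod q)ˣ)) (f := fun a => ‖T a - m‖)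
    rw [card_univ, hcard] at this
    exact this
  refine h1.trans ?_
  have h2 := sum_all q (fun a => T a - m)
  rw [← h2]
  -- the sum against a character
  have hsum : ∀ χ : DirichletCharacter ℂ q, ∑ a : ZMod q, χ a * T a =
      ∑ n ∈ B, b n * χ (n : ZMod q) := by
    intro χ
    rw [← sum_fiberwise_of_maps_to (s := B) (t := univ) (g := fun n : ℕ => (n : ZMod q))
      (fun _ _ => mem_univ _)]
    refine sum_congr rfl fun a _ => ?_
    rw [hT]
    beta_reduce
    rw [mul_sum]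
    refine sum_congr rfl fun n hn => ?_
    rw [mem_filter] at hn
    rw [hn.2, mul_comm]
  have hone : ∑ a : ZMod q, (1 : DirichletCharacter ℂ q) a * (T a - m) = 0 := by
    have hu : ∑ a : ZMod q, (1 : DirichletCharacter ℂ q) a * (T a - m) =
        ∑ a : (ZMod q)ˣ, (T a - m) := by
      rw [← sum_filter_add_sum_filter_not (univ : Finset (ZMod q)) (fun a => IsUnit a)]
      have h0 : ∑ a ∈ (univ : Finset (ZMod q)).filter (fun a => ¬ IsUnit a),
          (1 : DirichletCharacter ℂ q) a * (T a - m) = 0 := by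
        refine sum_eq_zero fun a ha => ?_
        rw [mem_filter] at ha
        rw [MulChar.map_nonunit _ ha.2, zero_mul]
      rw [h0, add_zero]
      symm
      refine sum_bij (fun (a : (ZMod q)ˣ) _ => (a : ZMod q)) ?_ ?_ ?_ ?_
      · intro a _
        rw [mem_filter]
        exact ⟨mem_univ _, a.isUnit⟩
      · intro a _ b _ h
        exact Units.ext h
      · intro a ha
        rw [mem_filter] at ha
        obtain ⟨u, hu⟩ := ha.2
        exact ⟨u, mem_univ _, hu⟩
      · intro a _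
        rw [MulChar.one_apply_coe, one_mul]
    rw [hu, sum_sub_distrib, sum_const, card_univ, hcard, nsmul_eq_mul, hm, mul_div_cancel₀ _ hφ',
      sub_self]
  have hne : ∀ χ : DirichletCharacter ℂ q, χ ≠ 1 → ∑ a : ZMod q, χ⁻¹ a * (T a - m) =
      ∑ n ∈ B, b n * χ⁻¹ (n : ZMod q) := by
    intro χ hχ
    have h3 : ∑ a : ZMod q, χ⁻¹ a = 0 := MulChar.sum_eq_zero_of_ne_one (inv_ne_one.2 hχ)
    rw [← hsum]
    calc ∑ a : ZMod q, χ⁻¹ a * (T a - m) = ∑ a : ZMod q, χ⁻¹ a * T a - (∑ a : ZMod q, χ⁻¹ a) * m := by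
          rw [sum_mul, ← sum_sub_distrib]
          exact sum_congr rfl fun a _ => by ring
      _ = _ := by rw [h3, zero_mul, sub_zero]
  rw [← sum_erase_add _ _ (mem_univ (1 : DirichletCharacter ℂ q)), inv_one, hone, norm_zero,
    zero_pow two_ne_zero, add_zero]
  unfold PP
  calc ∑ χ ∈ (univ : Finset (DirichletCharacter ℂ q)).erase 1,
        ‖∑ a : ZMod q, χ⁻¹ a * (T a - m)‖ ^ 2
      = ∑ χ ∈ (univ : Finset (DirichletCharacter ℂ q)).erase 1,
        ‖∑ n ∈ B, b n * χ⁻¹ (n : ZMod q)‖ ^ 2 := by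
        refine sum_congr rfl fun χ hχ => ?_
        rw [hne χ (ne_of_mem_erase hχ)]
    _ = ∑ χ ∈ ((univ : Finset (DirichletCharacter ℂ q)).erase 1).image (fun χ => χ⁻¹),
        ‖∑ n ∈ B, b n * χ (n : ZMod q)‖ ^ 2 := by
        rw [sum_image (fun x _ y _ h => inv_injective h)]
    _ ≤ _ := by
        refine sum_le_sum_of_subset_of_nonneg ?_ fun _ _ _ => by positivity
        intro χ hχ
        rw [mem_image] at hχ
        obtain ⟨ψ, hψ, rfl⟩ := hχ
        rw [mem_filter]
        exact ⟨mem_univ _, prim_of_ne hq _ (inv_ne_one.2 (ne_of_mem_erase hψ))⟩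

end Run7.h522.UT
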