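import Pool.Agent.Run7.h522.UT.Cnt

/-!
# All but boundedly many characters: the numerical estimates
-/

set_option autoImplicit false

namespace Run7.h522.UT

open Finset NumberField IsDedekindDomain Filter Topology Pool.Agent.H921R2.TatePole
  Pool.Agent.W350.Edge Pool.Agent.W350.EdgeV Pool.Agent.W350.EdgeNF Run7.h522.BD

/-- The size of the set of the primes up to `X`. -/
noncomputable def U (X : ℕ) : ℝ := X / Real.log X

lemma U_pos {X : ℕ} (hX : 2 ≤ X) : 0 < U X := by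
  unfold U
  have h : (1 : ℝ) < X := by exact_mod_cast hX
  have := Real.log_pos h
  positivity

lemma card_PR : ∀ᶠ X : ℕ in atTop, ((PR X).card : ℝ) ≤ 2 * U X := by
  have h4 : Real.log 4 < 2 := by
    have : Real.log 4 = 2 * Real.log 2 := by
      rw [show (4 : ℝ) = 2 ^ 2 by norm_num, Real.log_pow]
      norm_num
    rw [this]
    have := Real.log_two_lt_d9
    linarith
  have h := (Chebyshev.eventually_primeCounting_le (ε := 2 - Real.log 4) (by linarith))
  have h' := tendsto_natCast_atTop_atTop (R := ℝ) |>.eventually h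
  filter_upwards [h'] with X hX
  rw [Nat.floor_natCast] at hX
  have h1 : (PR X).card ≤ Nat.primeCounting X := by
    unfold PR Nat.primeCounting Nat.primeCounting'
    rw [Nat.count_eq_card_filter_range]
    refine card_le_card fun p hp => ?_
    rw [mem_filter, mem_Ioc] at hp
    rw [mem_filter, mem_range]
    exact ⟨by omega, hp.2⟩
  have h2 : ((PR X).card : ℝ) ≤ Nat.primeCounting X := by exact_mod_cast h1
  refine h2.trans (hX.trans (le_of_eq ?_))
  unfold U
  ring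

lemma sqrt_small {a : ℝ} (ha : 0 < a) : ∀ᶠ X : ℕ in atTop, (Nat.sqrt X : ℝ) ≤ a * U X := by
  have h := (isLittleO_log_rpow_atTop (r := 1 / 2) (by norm_num)).bound ha
  have h' := tendsto_natCast_atTop_atTop (R := ℝ) |>.eventually h
  filter_upwards [h', eventually_ge_atTop 2] with X hX hX2
  have h1 : (1 : ℝ) < X := by exact_mod_cast hX2
  have h2 := Real.log_pos h1
  rw [Real.norm_of_nonneg h2.le, Real.norm_of_nonneg (by positivity), ← Real.sqrt_eq_rpow] at hX
  have h3 : (Nat.sqrt X : ℝ) ≤ Real.sqrt X := by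
    refine Real.le_sqrt_of_sq_le ?_
    have := Nat.sqrt_le' X
    exact_mod_cast this
  refine h3.trans ?_
  unfold U
  rw [← mul_div_assoc, le_div_iff₀ h2]
  have h4 : Real.sqrt X * Real.sqrt X = X := Real.mul_self_sqrt (by linarith)
  calc Real.sqrt X * Real.log X ≤ Real.sqrt X * (a * Real.sqrt X) :=
        mul_le_mul_of_nonneg_left hX (Real.sqrt_nonneg _)
    _ = a * (Real.sqrt X * Real.sqrt X) := by ring
    _ = _ := by rw [h4]

lemma log_ge {δ : ℝ} (hδ : 0 < δ) {X Q : ℕ} (hX : 1 ≤ X) (hQ : 1 ≤ Q)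
    (hQX : (Q : ℝ) ≤ (X : ℝ) ^ (1 / 2 - δ)) :
    Q ≤ Nat.sqrt X ∧ δ * Real.log X ≤ Real.log (((Nat.sqrt X / Q : ℕ) : ℝ) + 1) := by
  have hX1 : (1 : ℝ) ≤ X := by exact_mod_cast hX
  have hX0 : (0 : ℝ) < X := by linarith
  have hQ0 : (0 : ℝ) < Q := by exact_mod_cast hQ
  have h1 : (Q : ℝ) ≤ Real.sqrt X := by
    rw [Real.sqrt_eq_rpow]
    exact hQX.trans (Real.rpow_le_rpow_of_exponent_le hX1 (by linarith))
  constructor
  · rw [Nat.le_sqrt']
    have h2 : (Q : ℝ) ^ 2 ≤ X := by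
      rw [← Real.sq_sqrt hX0.le]
      exact pow_le_pow_left₀ hQ0.le h1 2
    exact_mod_cast h2
  · have h2 : Nat.sqrt X + 1 ≤ Q * (Nat.sqrt X / Q + 1) := Nat.lt_mul_div_succ _ hQ
    have h3 : Real.sqrt X ≤ Nat.sqrt X + 1 := by
      rw [Real.sqrt_le_left (by positivity)]
      have := Nat.lt_succ_sqrt' X
      exact_mod_cast this.le
    have h4 : Real.sqrt X ≤ Q * (((Nat.sqrt X / Q : ℕ) : ℝ) + 1) := by
      refine h3.trans ?_
      exact_mod_cast h2
    have h5 : (X : ℝ) ^ δ ≤ ((Nat.sqrt X / Q : ℕ) : ℝ) + 1 := by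
      have h6 : (X : ℝ) ^ (1 / 2 - δ) * (X : ℝ) ^ δ = Real.sqrt X := by
        rw [← Real.rpow_add hX0, Real.sqrt_eq_rpow]
        congr 1
        ring
      have h7 : 0 < (X : ℝ) ^ (1 / 2 - δ) := by positivity
      have h8 : (X : ℝ) ^ (1 / 2 - δ) * (X : ℝ) ^ δ ≤
          (X : ℝ) ^ (1 / 2 - δ) * (((Nat.sqrt X / Q : ℕ) : ℝ) + 1) := by
        rw [h6]
        exact h4.trans (mul_le_mul_of_nonneg_right hQX (by positivity))
      exact le_of_mul_le_mul_left h8 h7
    calc δ * Real.log X = Real.log ((X : ℝ) ^ δ) := (Real.log_rpow hX0 δ).symm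
      _ ≤ _ := Real.log_le_log (by positivity) h5

/-- The bound for the sum over all primitive characters. -/
theorem S_bound {δ : ℝ} (hδ : 0 < δ) : ∀ᶠ X : ℕ in atTop, ∀ (K : Type) [Field K] [NumberField K]
    (c : HeightOneSpectrum (𝓞 K) → ℂ), (∀ v, ‖c v‖ ≤ 1) → ∀ Q : ℕ,
      (Q : ℝ) ≤ (X : ℝ) ^ (1 / 2 - δ) →
      ∑ q ∈ range Q, PP (PR X) (gp c X) (q + 1) ≤
        48 * (Module.finrank ℚ K : ℝ) ^ 2 / δ * (U X) ^ 2 := by
  filter_upwards [card_PR, eventually_ge_atTop 2] with X hX hX2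
  intro K _ _ c hc Q hQX
  have hX1 : (1 : ℝ) < X := by exact_mod_cast hX2
  have hl := Real.log_pos hX1
  rcases Nat.eq_zero_or_pos Q with hQ | hQ
  · subst hQ
    rw [range_zero, sum_empty]
    positivity
  obtain ⟨h1, h2⟩ := log_ge hδ (by omega) hQ hQX
  have h3 := pp_bound hc X Q h1
  have h4 : 0 ≤ ∑ q ∈ range Q, PP (PR X) (gp c X) (q + 1) :=
    sum_nonneg fun _ _ => PP_nonneg _ _ _
  set S := ∑ q ∈ range Q, PP (PR X) (gp c X) (q + 1) with hS
  set D : ℝ := ((Module.finrank ℚ K : ℕ) : ℝ) with hD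
  have hD0 : 0 ≤ D := Nat.cast_nonneg _
  have h5 : δ * Real.log X / 2 * S ≤ 12 * X * (D ^ 2 * (2 * U X)) := by
    refine le_trans (mul_le_mul_of_nonneg_right ?_ h4) (h3.trans ?_)
    · linarith
    · gcongr
  have h6 : (X : ℝ) = U X * Real.log X := by
    unfold U
    rw [div_mul_cancel₀ _ hl.ne']
  have h7 : δ * S ≤ 48 * D ^ 2 * (U X) ^ 2 := by
    have h8 : (δ * S) * (Real.log X / 2) ≤ (48 * D ^ 2 * (U X) ^ 2) * (Real.log X / 2) := by
      calc (δ * S) * (Real.log X / 2) = δ * Real.log X / 2 * S := by ring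
        _ ≤ 12 * X * (D ^ 2 * (2 * U X)) := h5
        _ = 12 * (U X * Real.log X) * (D ^ 2 * (2 * U X)) := by rw [← h6]
        _ = _ := by ring
    exact le_of_mul_le_mul_right h8 (by positivity)
  rw [div_mul_eq_mul_div, le_div_iff₀ hδ, mul_comm]
  exact h7

end Run7.h522.UT
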