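import Pool.Agent.Run7.h522.UT.Ev
import Pool.Agent.Run7.h522.UT.Dd

/-!
# All but boundedly many characters
-/

set_option autoImplicit false

namespace Run7.h522.UT

open Finset NumberField IsDedekindDomain Filter Topology Pool.Agent.H921R2.TatePole
  Pool.Agent.W350.Edge Pool.Agent.W350.EdgeV Pool.Agent.W350.EdgeNF Run7.h522.BD

section sums

variable {K : Type} [Field K] [NumberField K]

/-- The sum against a character. -/
noncomputable def Ch (c : HeightOneSpectrum (𝓞 K) → ℂ) (X : ℕ) {q : ℕ}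
    (χ : DirichletCharacter ℂ q) : ℂ := ∑ v ∈ VX K X, c v * χ ((nm v : ℕ) : ZMod q)

lemma norm_Ch_sub {c : HeightOneSpectrum (𝓞 K) → ℂ} (hc : ∀ v, ‖c v‖ ≤ 1) (X : ℕ) {q : ℕ}
    (χ : DirichletCharacter ℂ q) :
    ‖Ch c X χ‖ ≤ ‖∑ p ∈ PR X, gp c X p * χ (p : ZMod q)‖ + Module.finrank ℚ K * Nat.sqrt X := by
  unfold Ch
  rw [sum_VX, sum_Mn c X (fun n => χ (n : ZMod q))]
  refine (norm_add_le _ _).trans (add_le_add le_rfl ?_)
  refine (norm_sum_le_of_le (n := fun _ => (1 : ℝ)) _ fun v _ => ?_).trans ?_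
  · rw [norm_mul]
    exact mul_le_one₀ (hc v) (norm_nonneg _) (χ.norm_le_one _)
  · rw [sum_const, nsmul_eq_mul, mul_one]
    exact_mod_cast card_Rs (K := K) X

open Classical in
/-- The sums over the residue classes. -/
noncomputable def Ts (G : Finset (HeightOneSpectrum (𝓞 K))) (c : HeightOneSpectrum (𝓞 K) → ℂ)
    (q : ℕ) (a : (ZMod q)ˣ) : ℂ := ∑ v ∈ G.filter (fun v => ((nm v : ℕ) : ZMod q) = a), c v

lemma sum_Ts_le {q : ℕ} [NeZero q] (G : Finset (HeightOneSpectrum (𝓞 K)))
    (c : HeightOneSpectrum (𝓞 K) → ℂ) : ∑ a : (ZMod q)ˣ, ‖Ts G c q a‖ ≤ ∑ v ∈ G, ‖c v‖ := by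
  classical
  unfold Ts
  calc ∑ a : (ZMod q)ˣ, ‖∑ v ∈ G.filter (fun v => ((nm v : ℕ) : ZMod q) = a), c v‖
      ≤ ∑ a : (ZMod q)ˣ, ∑ v ∈ G.filter (fun v => ((nm v : ℕ) : ZMod q) = a), ‖c v‖ :=
        sum_le_sum fun a _ => norm_sum_le _ _
    _ = ∑ v ∈ G, ∑ a : (ZMod q)ˣ, if ((nm v : ℕ) : ZMod q) = a then ‖c v‖ else 0 := by
        rw [sum_comm]
        refine sum_congr rfl fun a _ => ?_
        rw [sum_filter]
    _ ≤ ∑ v ∈ G, ‖c v‖ := by
        refine sum_le_sum fun v _ => ?_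
        by_cases h : IsUnit ((nm v : ℕ) : ZMod q)
        · obtain ⟨u, hu⟩ := h
          rw [sum_eq_single u]
          · rw [if_pos hu.symm]
          · intro b _ hb
            rw [if_neg]
            intro h2
            exact hb (Units.ext (by rw [← h2, hu]))
          · exact fun h => absurd (mem_univ _) h
        · rw [sum_eq_zero]
          · exact norm_nonneg _
          · intro a _
            rw [if_neg]
            intro h2
            exact h (h2 ▸ a.isUnit)

lemma Ts_main {q : ℕ} (X : ℕ) (c : HeightOneSpectrum (𝓞 K) → ℂ) (a : (ZMod q)ˣ) :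
    Ts (Mn K X) c q a = ∑ p ∈ (PR X).filter (fun p : ℕ => (p : ZMod q) = a), gp c X p := by
  classical
  have h := sum_Mn c X (fun n => if (n : ZMod q) = a then 1 else 0)
  unfold Ts
  rw [sum_filter, sum_filter]
  calc ∑ v ∈ Mn K X, (if ((nm v : ℕ) : ZMod q) = a then c v else 0)
      = ∑ v ∈ Mn K X, c v * (if ((nm v : ℕ) : ZMod q) = a then 1 else 0) := by
        refine sum_congr rfl fun v _ => ?_
        split_ifs <;> simp
    _ = _ := by
        rw [h]
        refine sum_congr rfl fun v _ => ?_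
        split_ifs <;> simp

lemma Ts_split {q : ℕ} (X : ℕ) (c : HeightOneSpectrum (𝓞 K) → ℂ) (a : (ZMod q)ˣ) :
    Ts (VX K X) c q a = Ts (Mn K X) c q a + Ts (Rs K X) c q a := by
  classical
  unfold Ts
  rw [sum_filter, sum_filter, sum_filter, sum_VX]

/-- The discrepancy over the residue classes. -/
lemma dd_bound {c : HeightOneSpectrum (𝓞 K) → ℂ} (hc : ∀ v, ‖c v‖ ≤ 1) (X : ℕ) {q : ℕ} [NeZero q]
    (hq : q.Prime) (hqX : q ≤ Nat.sqrt X) :
    dd (Ts (VX K X) c q) ≤
      Real.sqrt (PP (PR X) (gp c X) q) + 2 * (Module.finrank ℚ K * Nat.sqrt X) := by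
  have h1 : Ts (VX K X) c q = fun a => Ts (Mn K X) c q a + Ts (Rs K X) c q a :=
    funext fun a => Ts_split X c a
  rw [h1]
  refine (dd_add _ _).trans (add_le_add ?_ ?_)
  · have h2 : Ts (Mn K X) c q = fun a : (ZMod q)ˣ =>
        ∑ p ∈ (PR X).filter (fun p : ℕ => (p : ZMod q) = a), gp c X p :=
      funext fun a => Ts_main X c a
    change dd (Ts (Mn K X) c q) ≤ _
    rw [h2]
    refine Real.le_sqrt_of_sq_le ?_
    refine dd_main hq (PR X) (gp c X) fun p hp => ?_
    unfold PR at hp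
    rw [mem_filter, mem_Ioc] at hp
    refine (Nat.coprime_primes hp.2 hq).2 ?_
    omega
  · change dd (Ts (Rs K X) c q) ≤ _
    refine (dd_le _).trans ?_
    have h2 := sum_Ts_le (q := q) (Rs K X) c
    have h3 : ∑ v ∈ Rs K X, ‖c v‖ ≤ Module.finrank ℚ K * Nat.sqrt X := by
      refine (sum_le_sum (g := fun _ => (1 : ℝ)) fun v _ => hc v).trans ?_
      rw [sum_const, nsmul_eq_mul, mul_one]
      exact_mod_cast card_Rs (K := K) X
    linarith

end sums

/-- All characters modulo `1, …, Q`. -/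
noncomputable def AC (Q : ℕ) : Finset (Σ q : ℕ, DirichletCharacter ℂ (q + 1)) := by
  classical exact (range Q).sigma fun _ => univ

lemma mem_AC {Q : ℕ} {z : Σ q : ℕ, DirichletCharacter ℂ (q + 1)} : z ∈ AC Q ↔ z.1 < Q := by
  unfold AC
  rw [mem_sigma, mem_range]
  exact ⟨fun h => h.1, fun h => ⟨h, mem_univ _⟩⟩

open Classical in
/-- The exceptional characters. -/
noncomputable def EC {K : Type} [Field K] [NumberField K] (c : HeightOneSpectrum (𝓞 K) → ℂ)
    (X Q : ℕ) (t : ℝ) : Finset (Σ q : ℕ, DirichletCharacter ℂ (q + 1)) :=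
  (AC Q).filter fun z => z.2.IsPrimitive ∧ t < ‖Ch c X z.2‖

open Classical in
/-- The exceptional prime moduli. -/
noncomputable def EM {K : Type} [Field K] [NumberField K] (c : HeightOneSpectrum (𝓞 K) → ℂ)
    (X Q : ℕ) (t : ℝ) : Finset ℕ :=
  (range Q).filter fun q => (q + 1).Prime ∧ t < dd (Ts (VX K X) c (q + 1))

open Classical in
lemma sum_AC (Q : ℕ) (B : Finset ℕ) (b : ℕ → ℂ) :
    ∑ z ∈ (AC Q).filter (fun z => z.2.IsPrimitive),
      ‖∑ n ∈ B, b n * z.2 (n : ZMod (z.1 + 1))‖ ^ 2 = ∑ q ∈ range Q, PP B b (q + 1) := by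
  unfold AC PP
  rw [sum_filter, sum_sigma]
  refine sum_congr rfl fun q _ => ?_
  rw [sum_filter]

/-- Few exceptional characters. -/
theorem card_EC (d : ℕ) {δ η : ℝ} (hδ : 0 < δ) (hη : 0 < η) : ∃ κ : ℕ, ∀ (K : Type) [Field K]
    [NumberField K], Module.finrank ℚ K ≤ d → ∀ c : HeightOneSpectrum (𝓞 K) → ℂ, (∀ v, ‖c v‖ ≤ 1) →
      ∀ X : ℕ, 2 ≤ X → ∀ Q : ℕ, (Q : ℝ) ≤ (X : ℝ) ^ (1 / 2 - δ) →
        (EC c X Q (η * U X)).card ≤ κ ∧ (EM c X Q (η * U X)).card ≤ κ := by
  classical
  have hd0 : (0 : ℝ) ≤ d := Nat.cast_nonneg _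
  have ha : 0 < η / (4 * (d + 1)) := by positivity
  obtain ⟨X₀, hX₀⟩ := eventually_atTop.1 ((S_bound hδ).and (sqrt_small ha))
  obtain ⟨κ₁, hκ₁⟩ := exists_nat_ge (192 * (d : ℝ) ^ 2 / (δ * η ^ 2))
  refine ⟨(AC X₀).card + X₀ + κ₁, ?_⟩
  intro K _ _ hd c hc X hX Q hQX
  have hX1 : (1 : ℝ) ≤ X := by exact_mod_cast (by omega : 1 ≤ X)
  have hU := U_pos hX
  rcases Nat.eq_zero_or_pos Q with hQ | hQ
  · subst hQ
    have h1 : AC 0 = ∅ := by
      refine eq_empty_of_forall_notMem fun z hz => ?_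
      rw [mem_AC] at hz
      omega
    constructor
    · unfold EC
      rw [h1, filter_empty, card_empty]
      exact Nat.zero_le _
    · unfold EM
      rw [range_zero, filter_empty, card_empty]
      exact Nat.zero_le _
  obtain ⟨hQr, _⟩ := log_ge hδ (by omega) hQ hQX
  have hrX : Nat.sqrt X ≤ X := Nat.sqrt_le_self X
  by_cases hXX : X < X₀
  · have hQ0 : Q ≤ X₀ := by omega
    constructor
    · have h1 : EC c X Q (η * U X) ⊆ AC X₀ := by
        intro z hz
        unfold EC at hz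
        rw [mem_filter, mem_AC] at hz
        rw [mem_AC]
        omega
      have := card_le_card h1
      omega
    · have h1 : EM c X Q (η * U X) ⊆ range X₀ := by
        intro z hz
        unfold EM at hz
        rw [mem_filter, mem_range] at hz
        rw [mem_range]
        omega
      have := card_le_card h1
      rw [card_range] at this
      omega
  · obtain ⟨hS, hs⟩ := hX₀ X (by omega)
    have hS' := hS K c hc Q hQX
    have hD : (Module.finrank ℚ K : ℝ) ≤ d := by exact_mod_cast hd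
    have hD0 : (0 : ℝ) ≤ Module.finrank ℚ K := Nat.cast_nonneg _
    have hrest : (Module.finrank ℚ K : ℝ) * Nat.sqrt X ≤ η / 4 * U X := by
      calc (Module.finrank ℚ K : ℝ) * Nat.sqrt X ≤ (d + 1) * (η / (4 * (d + 1)) * U X) := by
            refine mul_le_mul (by linarith) hs (Nat.cast_nonneg _) (by positivity)
        _ = _ := by
            field_simp
    have hfin : ∀ n : ℕ, (n : ℝ) * (η / 2 * U X) ^ 2 ≤ ∑ q ∈ range Q, PP (PR X) (gp c X) (q + 1) →
        n ≤ κ₁ := by
      intro n hn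
      have h1 : (n : ℝ) * (η / 2 * U X) ^ 2 ≤ 48 * (d : ℝ) ^ 2 / δ * (U X) ^ 2 := by
        refine hn.trans (hS'.trans ?_)
        gcongr
      have h2 : (n : ℝ) ≤ 192 * (d : ℝ) ^ 2 / (δ * η ^ 2) := by
        rw [le_div_iff₀ (by positivity)]
        have h3 : (n : ℝ) * (δ * η ^ 2) * (U X) ^ 2 ≤ 192 * (d : ℝ) ^ 2 * (U X) ^ 2 := by
          have h4 := mul_le_mul_of_nonneg_left h1 (by positivity : (0 : ℝ) ≤ 4 * δ)
          calc (n : ℝ) * (δ * η ^ 2) * (U X) ^ 2 = 4 * δ * ((n : ℝ) * (η / 2 * U X) ^ 2) := by ring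
            _ ≤ 4 * δ * (48 * (d : ℝ) ^ 2 / δ * (U X) ^ 2) := h4
            _ = _ := by
                field_simp
                ring
        exact le_of_mul_le_mul_right h3 (by positivity)
      exact_mod_cast h2.trans hκ₁
    constructor
    · refine (hfin _ ?_).trans (by omega)
      rw [← sum_AC Q (PR X) (gp c X)]
      calc ((EC c X Q (η * U X)).card : ℝ) * (η / 2 * U X) ^ 2
          = ∑ z ∈ EC c X Q (η * U X), (η / 2 * U X) ^ 2 := by rw [sum_const, nsmul_eq_mul]
        _ ≤ ∑ z ∈ EC c X Q (η * U X),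
            ‖∑ p ∈ PR X, gp c X p * z.2 (p : ZMod (z.1 + 1))‖ ^ 2 := by
            refine sum_le_sum fun z hz => pow_le_pow_left₀ (by positivity) ?_ 2
            unfold EC at hz
            rw [mem_filter] at hz
            have h1 := norm_Ch_sub hc X z.2
            have h2 := hz.2.2
            nlinarith
        _ ≤ _ := by
            refine sum_le_sum_of_subset_of_nonneg ?_ fun _ _ _ => by positivity
            intro z hz
            unfold EC at hz
            rw [mem_filter] at hz ⊢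
            exact ⟨hz.1, hz.2.1⟩
    · refine (hfin _ ?_).trans (by omega)
      calc ((EM c X Q (η * U X)).card : ℝ) * (η / 2 * U X) ^ 2
          = ∑ z ∈ EM c X Q (η * U X), (η / 2 * U X) ^ 2 := by rw [sum_const, nsmul_eq_mul]
        _ ≤ ∑ q ∈ EM c X Q (η * U X), PP (PR X) (gp c X) (q + 1) := by
            refine sum_le_sum fun q hq => ?_
            unfold EM at hq
            rw [mem_filter, mem_range] at hq
            have h1 := dd_bound hc X hq.2.1 (by omega)
            have h2 := hq.2.2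
            have h3 : η / 2 * U X ≤ Real.sqrt (PP (PR X) (gp c X) (q + 1)) := by nlinarith
            calc (η / 2 * U X) ^ 2 ≤ (Real.sqrt (PP (PR X) (gp c X) (q + 1))) ^ 2 :=
                  pow_le_pow_left₀ (by positivity) h3 2
              _ = _ := Real.sq_sqrt (PP_nonneg _ _ _)
        _ ≤ _ := by
            refine sum_le_sum_of_subset_of_nonneg ?_ fun _ _ _ => PP_nonneg _ _ _
            exact filter_subset _ _

end Run7.h522.UT
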